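import Mathlib
import Pool.Agent.TH128.GZ.GrpB

/-!
# The period torsor of the product of any variety with almost all abelian varieties of relative
dimension one

Let `Z` be **any** smooth projective variety over the field of algebraic numbers (or any
de Rham-Betti object), with Betti numbers `b_k`. Let `A_i` be pairwise non-isogenous simple abelian
varieties over the algebraic numbers such that the endomorphism algebra of `A_i` is a totally real
field `F_i` of degree `dim A_i` (real multiplication; elliptic curves without complex multiplication
are the case `F_i = ℚ`), or a totally indefinite quaternion algebra over a totally real field `F_i`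
of degree `dim A_i / 2`. With algebraic coefficients, `H^1(A_i)` is the sum of objects `V` of rank
two (once each, or twice each in the quaternionic case), one for each embedding of `F_i`. We call
them the pieces. We show: all but at most `(∑ b_k ^ 2) / 3` pieces `V_i` are independent of `Z`, in
the sense of the period torsors: for every finite set `J` of such pieces, every torsor over the
algebraic numbers, under an algebraic subgroup `H` of the general linear group of
`H(Z) ⊕ ⨁_{j ∈ J} V_j`, which contains the comparison isomorphism has a group `H` that contains the
product of the groups `SL(V_j)`, `j ∈ J`.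

Consequently let `M = h(Z × ∏ A_i ^ n_i)`, where no piece of the `A_i` is exceptional; so at most
`(∑ b_k ^ 2) / 3` of the varieties `A_i` are excluded. The group `G_And(M)` is contained in the
fibre product over `𝔾_m` (the twists) of `G_And(Z)` and of the groups `GL(V_j)`. The group
`G_dRB(M)` of the de Rham-Betti torsor contains the groups `SL(V_j)`, by the theorem (applied to
`H = G_dRB(M)`, a group over the rational numbers), and is mapped onto `G_dRB(Z)`. So
`Ω^dRB_M = Ω^And_M` if `Ω^dRB_Z = Ω^And_Z`. (The converse is known.)

The data are as follows.

* `Q` is the period matrix of `Z`, the matrix of the comparison isomorphism with respect to a basis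
  of `⨁ H^k_dR(Z)` over the algebraic numbers (rows) and a basis of `⨁ H^k(Z, ℚ)` (columns), both
  indexed by `B`; `deg b` is the degree of a basis vector. So `∑ b_k ^ 2` is the number of the pairs
  with `deg a = deg b`. The proof works for an arbitrary invertible matrix with the block structure
  given by `deg`.
* `P i` is the period matrix of the piece `V_i`, with respect to bases over the algebraic numbers of
  the de Rham and the Betti side. The determinant of `V_i` is the Tate object, so one can choose the
  bases such that `det (P i) = 2πi` for all `i`.
* By the analytic subgroup theorem of Wüstholz, the linear relations with algebraic coefficients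
  between the periods of an abelian variety over the algebraic numbers are given by its
  endomorphisms: the four periods of a piece are linearly independent over the algebraic numbers,
  and so are the eight periods of two different pieces (of the same variety, or of two varieties
  which are not isogenous). These are the last two fields of `IsRankTwoFamily`. No transcendence
  result is needed for the periods of `Z`, and no independence between periods of `Z` and of `A_i`.

The idea of the proof. The Lie algebra of `H` is defined over the algebraic numbers with respect to
the Betti structure and, conjugated by the periods, with respect to the de Rham structure, and it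
contains the logarithmic derivatives of the period matrix with respect to all the derivations of the
field of complex numbers. The analytic subgroup theorem shows that a Lie subalgebra of `∏ sl_2` with
these two rationality properties is everything, if it projects nontrivially to each factor. If the Lie
algebra of `H` does not contain `sl(V_j)`, then by Goursat's lemma there is a Lie algebra with these
properties which contains the logarithmic derivatives of the periods of `Z` and `V_j`, and in which
the endomorphism of `H(Z)` determines the endomorphism of `V_j`. If this is so for the pieces in a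
finite set `X`, one can intersect these Lie algebras to get a Lie algebra which injects into the
endomorphisms of the graded space `H(Z)` and projects onto `sl_2 ^ X`, hence
`3 |X| ≤ ∑ b_k ^ 2`.
-/

set_option autoImplicit false

namespace Pool.Agent.Results.MP_470b79_ag.AlmostAllRankTwoPieces

open Matrix

/-- Two-by-two matrices. -/
abbrev M₂ : Type := Matrix (Fin 2) (Fin 2) ℂ

/-- The matrix has algebraic entries. -/
def IsAlgebraicMatrix {α β : Type} (c : Matrix α β ℂ) : Prop := ∀ a b, IsAlgebraic ℚ (c a b)

/-- The properties of the period matrices `P i` of the pairwise non-isomorphic pieces `V_i` of rank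
two of abelian varieties without complex multiplication. -/
structure IsRankTwoFamily {ι : Type} (P : ι → M₂) : Prop where
  det_ne : ∀ i, (P i).det ≠ 0
  /-- The relation of Legendre. -/
  det_eq : ∀ i j, (P i).det = (P j).det
  /-- Wüstholz: the periods of a piece are linearly independent over the algebraic numbers. -/
  indep : ∀ i, ∀ c : M₂, IsAlgebraicMatrix c → ∑ a, ∑ b, c a b * P i a b = 0 → c = 0
  /-- Wüstholz: and so are the periods of two pieces. -/
  indep₂ : ∀ i j, i ≠ j → ∀ c d : M₂, IsAlgebraicMatrix c → IsAlgebraicMatrix d →
    ∑ a, ∑ b, c a b * P i a b + ∑ a, ∑ b, d a b * P j a b = 0 → c = 0 ∧ d = 0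

/-- The index set of a basis of `⨁_{j ∈ J} V_j ⊕ H(Z)`. -/
abbrev Idx (J B : Type) : Type := (Fin 2 × J) ⊕ B

variable {J B : Type} [Fintype J] [DecidableEq J] [Fintype B] [DecidableEq B]

/-- The period matrix of `⨁_{j ∈ J} V_j ⊕ H(Z)`. -/
def periodMatrix (P : J → M₂) (Q : Matrix B B ℂ) : Matrix (Idx J B) (Idx J B) ℂ :=
  fromBlocks (blockDiagonal P) 0 0 Q

/-- The endomorphism of `⨁_{j ∈ J} V_j ⊕ H(Z)` which is `g j` on `V_j` and the identity on
`H(Z)`. -/
def onPieces (g : J → M₂) : Matrix (Idx J B) (Idx J B) ℂ := fromBlocks (blockDiagonal g) 0 0 1

/-- A subgroup of `GL_N(ℂ)` defined by polynomials with algebraic coefficients. -/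
def IsAlgebraicSubgroup {N : Type} [Fintype N] [DecidableEq N] (H : Subgroup (GL N ℂ)) : Prop :=
  ∃ I : Set (MvPolynomial (N × N) ℂ), (∀ p ∈ I, ∀ m, IsAlgebraic ℚ (p.coeff m)) ∧
    ∀ g : GL N ℂ, g ∈ H ↔ ∀ p ∈ I, MvPolynomial.eval (fun b => (g : Matrix N N ℂ) b.1 b.2) p = 0

/-- The matrix `E` of the comparison isomorphism belongs to a torsor `A⁻¹ · H` of `H` with an
algebraic point `A⁻¹`: with respect to some algebraic basis of the de Rham side, the period matrix
`A * E` belongs to `H`. -/
def TorsorContains {N : Type} [Fintype N] [DecidableEq N] (H : Subgroup (GL N ℂ))
    (E : Matrix N N ℂ) : Prop :=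
  ∃ A : Matrix N N ℂ, IsAlgebraicMatrix A ∧ ∃ h ∈ H, (h : Matrix N N ℂ) = A * E

/-- **Main theorem.** Let `Q` be the period matrix of a variety `Z`, with rows and columns in the
degrees `deg`, and let `P i` be the period matrices of pieces of rank two. There is a finite set `X`
of exceptional pieces, with `3 |X| ≤ ∑ b_k ^ 2`, such that for all finite sets `J` of other pieces,
all algebraic groups `H` over the algebraic numbers, with a torsor which contains the comparison
isomorphism of `⨁_{j ∈ J} V_j ⊕ H(Z)`, contain the product of the groups `SL(V_j)`, `j ∈ J`. -/
theorem result {ι B D : Type} [DecidableEq ι] [Fintype B] [DecidableEq B] [DecidableEq D]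
    {Q : Matrix B B ℂ} (hQ : Q.det ≠ 0) {deg : B → D} (hdeg : ∀ a b, deg a ≠ deg b → Q a b = 0)
    {P : ι → M₂} (hP : IsRankTwoFamily P) :
    ∃ X : Finset ι, 3 * X.card ≤ Fintype.card {p : B × B // deg p.1 = deg p.2} ∧
      ∀ J : Finset ι, Disjoint J X → ∀ H : Subgroup (GL (Idx J B) ℂ), IsAlgebraicSubgroup H →
        TorsorContains H (periodMatrix (fun j : J => P j) Q) →
        ∀ g : J → M₂, (∀ j, (g j).det = 1) →
          ∃ h ∈ H, (h : Matrix (Idx J B) (Idx J B) ℂ) = onPieces g := by
  classical
  obtain ⟨X, hX, hc⟩ := Pool.Agent.TH128.GZ.exists_finset
    (X := {i | Pool.Agent.TH128.GZ.Exc Pool.Agent.TH128.GZ.QB Pool.Agent.TH128.GZ.QB Q deg (P i)})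
    (N := Fintype.card {p : B × B // deg p.1 = deg p.2} / 3) (by
    intro T hT
    have h1 := Pool.Agent.TH128.GZ.exc_card (F := Pool.Agent.TH128.GZ.QB)
      (K := Pool.Agent.TH128.GZ.QB) (deg := deg) (fun x hx => Pool.Agent.TH128.GZ.mem_QB.1 hx)
      (fun x hx => Pool.Agent.TH128.GZ.mem_QB.1 hx) hQ hP.det_ne hP.det_eq T
      (fun i _ => hP.indep i) (fun i _ j _ hij => hP.indep₂ i j hij) (fun i hi => hT hi)
    omega)
  refine ⟨X, by omega, fun J hJ H hH ⟨A, hA, h, hh, hhA⟩ g hg => ?_⟩
  refine Pool.Agent.TH128.GZ.grp_main2 (fun j : J => hP.det_ne j) hQ hdeg hH hA hh hhA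
    (fun i j => hP.det_eq i j) (fun i => hP.indep i)
    (fun i j hij => hP.indep₂ i j fun h => hij (Subtype.ext h)) (fun j hE => ?_) hg
  refine Finset.disjoint_left.1 hJ j.2 ?_
  rw [← Finset.mem_coe, hX]
  exact hE

end Pool.Agent.Results.MP_470b79_ag.AlmostAllRankTwoPieces
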