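import Pool.Agent.TH128.KS.Grp

/-!
# The de Rham-Betti conjecture for the product of a K3 surface with any variety

Let `X` be a K3 surface (or a hyperkähler variety) over a subfield of the field of algebraic
numbers, and let `T` be the transcendental part of `H²(X)(1)`, of rank `n ≥ 6`. Suppose that the
Hodge structure `T` has no other endomorphisms than `ℚ`. Let `A` be the Kuga-Satake variety of `X`.
Let `Z` be **any** smooth projective variety over the algebraic numbers, or any motive. We assume
only that the ranks `b_k` of the pieces of the cohomology of `Z` are small: `b_k < n` if the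
polarization of the piece is symmetric (the pieces of even degree), and `b_k + 1 < n` if it is
alternating (the pieces of odd degree). For example `Z` is a product of any number of curves of
genus `< (n - 1) / 2`, of abelian varieties of dimension `< (n - 1) / 2` and of K3 surfaces with
transcendental lattice of rank `< n`; one takes the sum of the motives `h¹` and `T` of the factors.

* With algebraic coefficients, `h¹(A)` is a sum of copies of `S`, the spin representation of
  `GSpin(T)`, the Mumford-Tate group of `A` by Zarhin (of `S⁺` and `S⁻` if `n` is even; then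
  `S = S⁺ ⊕ S⁻`). In an algebraic basis of the Betti realization of `S`, the space `T` is spanned by
  matrices `Γ₁, …, Γₙ` with algebraic entries that satisfy the Clifford relations and generate the
  algebra of all matrices. Choose an algebraic basis of the de Rham realization of `S` which
  corresponds to the Betti basis under an algebraic point of the motivic torsor, and let `P` be the
  matrix of the comparison isomorphism of `S` (rows: Betti side, columns: de Rham side).
* `hDeligne`: the matrix `P` belongs to `GSpin(T)` (Deligne: Hodge classes on abelian varieties are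
  absolute Hodge classes; André: they are motivated).
* `hWustholz`: all linear relations with algebraic coefficients between the entries of `P` hold for
  the even Clifford algebra (Wüstholz: the linear relations between the periods of an abelian
  variety are given by its endomorphisms).
* `Q` is the matrix of the comparison isomorphism of the cohomology of `Z`, with respect to bases of
  the pieces (rows: Betti side, columns: de Rham side), `Φ` and `Ψ` are the matrices of the
  polarizations on the Betti and on the de Rham side. A polarization of weight `w` has values in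
  `ℚ(-w)`; so `Qᵀ Φ Q` is `Ψ` times a power `lam` of `2πi` on each piece. Nothing else is assumed
  on the periods of `Z`; no relation and no independence between periods of `X` and `Z` is assumed.

The theorem: every algebraic group `H` over the algebraic numbers, with a torsor over the algebraic
numbers which contains the comparison isomorphism of `S ⊕ H(Z)`, contains the group `Spin(T)`, acting
on `S` and trivially on `H(Z)`.

Consequence for the motive `M` of `X × Z` (more precisely, `M = h(Z) ⊕ h¹(A)`, whose tensor category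
contains `h(X × Z)` for a K3 surface `X`): `G_And(M)` is contained in the fibre product of
`GSpin(T)` and `G_And(Z)` over `𝔾_m`, and `G_dRB(M)` contains `Spin(T)` and is mapped onto
`G_dRB(Z)`. So `Ω^dRB = Ω^And` for `M` if and only if this is so for `Z`.

The idea of the proof. The Lie algebra of `H` contains the logarithmic derivatives of the comparison
isomorphism with respect to the derivations of the complex numbers. By the theorem of Wüstholz and the
classification of the Lie subalgebras of `so(n)` which generate the even Clifford algebra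
(helper164), its projection to `S` contains `so(n)`. As `so(n)` is simple and its dimension is
larger than the dimension of the Lie algebra `so(b_k)` or `sp(b_k)` of the similitudes of norm one of
every piece of `Z`, the lemma of Goursat shows that it contains `so(n) × 0`.
-/

set_option autoImplicit false
set_option linter.unusedSectionVars false

namespace Pool.Agent.Results.MP_470b79_ag.AnyVarietyTimesK3

open Matrix

section defs

variable {N : Type} [Fintype N] [DecidableEq N] {n : ℕ}

/-- Matrices with algebraic entries which satisfy the relations of Clifford,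
`Γᵢ² = 1` and `Γᵢ Γⱼ = - Γⱼ Γᵢ`, and generate the algebra of all matrices. -/
structure IsSpinSystem (Γ : Fin n → Matrix N N ℂ) : Prop where
  algebraic : ∀ i a b, IsAlgebraic ℚ (Γ i a b)
  sq : ∀ i, Γ i * Γ i = 1
  anti : ∀ i j, i ≠ j → Γ i * Γ j = -(Γ j * Γ i)
  generate : Algebra.adjoin ℂ (Set.range Γ) = ⊤

/-- The space of vectors. -/
def vectors (Γ : Fin n → Matrix N N ℂ) : Submodule ℂ (Matrix N N ℂ) :=
  Submodule.span ℂ (Set.range Γ)

/-- The even Clifford algebra. -/
def evenClifford (Γ : Fin n → Matrix N N ℂ) : Subalgebra ℂ (Matrix N N ℂ) :=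
  Algebra.adjoin ℂ {x | ∃ i j, x = Γ i * Γ j}

/-- The matrix `g` belongs to the group `GSpin(T)`: `g ∈ C⁺`, `g⁻¹ ∈ C⁺` and `g T g⁻¹ = T` for
the space `T` of vectors. -/
def InGSpin (Γ : Fin n → Matrix N N ℂ) (g : GL N ℂ) : Prop :=
  g.val ∈ evenClifford Γ ∧ (g⁻¹).val ∈ evenClifford Γ ∧
    ∀ t : Matrix N N ℂ, g.val * t * (g⁻¹).val ∈ vectors Γ ↔ t ∈ vectors Γ

/-- The group `Spin(T)`, generated by the products of two vectors `u`, `v` with `u² = v² = 1`. -/
def spin (Γ : Fin n → Matrix N N ℂ) : Subgroup (GL N ℂ) :=
  Subgroup.closure {g | ∃ u ∈ vectors Γ, ∃ v ∈ vectors Γ, u * u = 1 ∧ v * v = 1 ∧ g.val = u * v}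

/-- All linear relations with algebraic coefficients between the entries of `P` hold for the
even Clifford algebra. -/
def OnlyCliffordRelations (Γ : Fin n → Matrix N N ℂ) (P : Matrix N N ℂ) : Prop :=
  ∀ C : Matrix N N ℂ, (∀ i j, IsAlgebraic ℚ (C i j)) → ∑ i, ∑ j, C i j * P i j = 0 →
    ∀ x ∈ evenClifford Γ, ∑ i, ∑ j, C i j * x i j = 0

/-- The comparison isomorphism `Q` of a variety, the cohomology of which is the sum of polarized
pieces; `piece b` is the piece of the basis vector `b`, `even k` says that the form on the piece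
`k` is symmetric (otherwise it is alternating). -/
structure IsPolarized {B D : Type} [Fintype B] [DecidableEq B] (piece : B → D) (even : D → Prop)
    (Q Φ Ψ : Matrix B B ℂ) (lam : D → ℂ) : Prop where
  piece_Q : ∀ a b, piece a ≠ piece b → Q a b = 0
  piece_Φ : ∀ a b, piece a ≠ piece b → Φ a b = 0
  algebraic_Φ : ∀ a b, IsAlgebraic ℚ (Φ a b)
  algebraic_Ψ : ∀ a b, IsAlgebraic ℚ (Ψ a b)
  det_Q : Q.det ≠ 0
  det_Φ : Φ.det ≠ 0
  symmetric : ∀ a b, even (piece a) → Φ b a = Φ a b
  alternating : ∀ a b, ¬ even (piece a) → Φ b a = -Φ a b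
  lam_ne : ∀ k, lam k ≠ 0
  /-- The comparison isomorphism respects the polarizations, up to scalars (powers of `2πi`). -/
  period : ∀ a b, (Qᵀ * Φ * Q) a b = lam (piece a) * Ψ a b

/-- The rank of a piece. -/
noncomputable def rank {B D : Type} (piece : B → D) (k : D) : ℕ := Nat.card {b : B // piece b = k}

/-- A subgroup of `GL_R(ℂ)` defined by polynomials with algebraic coefficients. -/
def IsAlgebraicSubgroup {R : Type} [Fintype R] [DecidableEq R] (H : Subgroup (GL R ℂ)) : Prop :=
  ∃ I : Set (MvPolynomial (R × R) ℂ), (∀ p ∈ I, ∀ m, IsAlgebraic ℚ (p.coeff m)) ∧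
    ∀ g : GL R ℂ, g ∈ H ↔ ∀ p ∈ I, MvPolynomial.eval (fun b => (g : Matrix R R ℂ) b.1 b.2) p = 0

/-- The matrix `E` belongs to a torsor `H · A⁻¹` of `H` defined over the algebraic numbers. -/
def HasPoint {R : Type} [Fintype R] [DecidableEq R] (E : Matrix R R ℂ) (H : Subgroup (GL R ℂ)) :
    Prop :=
  ∃ A : Matrix R R ℂ, (∀ i j, IsAlgebraic ℚ (A i j)) ∧ ∃ g ∈ H, (g : Matrix R R ℂ) = E * A

end defs

section proof

open Pool.Agent.TH164.Spin Pool.Agent.TH119.MX Pool.Agent.TH128.KS

variable {N B D : Type} [Fintype N] [DecidableEq N] [Fintype B] [DecidableEq B] {n : ℕ}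

theorem val_inv (x : GL N ℂ) : x.val * (x⁻¹).val = 1 := by
  rw [← Units.val_mul, mul_inv_cancel, Units.val_one]

theorem inv_val (x : GL N ℂ) : (x⁻¹).val * x.val = 1 := by
  rw [← Units.val_mul, inv_mul_cancel, Units.val_one]

theorem cl_of {Γ : Fin n → Matrix N N ℂ} [Nonempty N] (h : IsSpinSystem Γ) : Cl Γ where
  rel i j := by
    by_cases hij : i = j
    · rw [if_pos hij, hij, h.sq, two_smul]
    · rw [if_neg hij, zero_smul, h.anti i j hij, neg_add_cancel]
  gen := h.generate

theorem inG_of {Γ : Fin n → Matrix N N ℂ} {g : GL N ℂ} (hg : InGSpin Γ g) :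
    InG Γ g.val (g⁻¹).val where
  r := val_inv g
  l := inv_val g
  c t ht := (hg.2.2 t).2 ht
  c' t ht := by
    refine (hg.2.2 _).1 ?_
    have h1 : g.val * ((g⁻¹).val * t * g.val) * (g⁻¹).val = t := by
      calc g.val * ((g⁻¹).val * t * g.val) * (g⁻¹).val =
          (g.val * (g⁻¹).val) * t * (g.val * (g⁻¹).val) := by simp only [Matrix.mul_assoc]
        _ = t := by rw [val_inv, Matrix.one_mul, Matrix.mul_one]
    rw [h1]
    exact ht

/-- A matrix on the first summand, and the identity on the second one. -/
theorem first_mul (x y : Matrix N N ℂ) : fromBlocks x 0 0 (1 : Matrix B B ℂ) *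
    fromBlocks y 0 0 (1 : Matrix B B ℂ) = fromBlocks (x * y) 0 0 1 := by
  rw [fromBlocks_multiply]
  simp

theorem spin_of {Γ : Fin n → Matrix N N ℂ} {H : Subgroup (GL (N ⊕ B) ℂ)}
    (h : ∀ u ∈ vectors Γ, ∀ v ∈ vectors Γ, u * u = 1 → v * v = 1 →
      ∃ x ∈ H, (x : Matrix (N ⊕ B) (N ⊕ B) ℂ) = fromBlocks (u * v) 0 0 1) {g : GL N ℂ}
    (hg : g ∈ spin Γ) :
    ∃ x ∈ H, (x : Matrix (N ⊕ B) (N ⊕ B) ℂ) = fromBlocks g.val 0 0 1 := by
  induction hg using Subgroup.closure_induction with
  | mem g hg =>
    obtain ⟨u, hu, v, hv, h1, h2, h3⟩ := hg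
    rw [h3]
    exact h u hu v hv h1 h2
  | one => exact ⟨1, one_mem H, by rw [Units.val_one, Units.val_one, fromBlocks_one]⟩
  | mul g g' _ _ hg hg' =>
    obtain ⟨x, hx, hx'⟩ := hg
    obtain ⟨y, hy, hy'⟩ := hg'
    exact ⟨x * y, mul_mem hx hy, by rw [Units.val_mul, hx', hy', first_mul, Units.val_mul]⟩
  | inv g _ hg =>
    obtain ⟨x, hx, hx'⟩ := hg
    refine ⟨x⁻¹, inv_mem hx, ?_⟩
    have h1 : x.val * fromBlocks (g⁻¹).val 0 0 (1 : Matrix B B ℂ) = 1 := by
      rw [hx', first_mul, val_inv, fromBlocks_one]
    calc (x⁻¹).val = (x⁻¹).val * (x.val * fromBlocks (g⁻¹).val 0 0 (1 : Matrix B B ℂ)) := by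
          rw [h1, Matrix.mul_one]
      _ = _ := by rw [← Matrix.mul_assoc, inv_val, Matrix.one_mul]

end proof

/-- **Theorem.** Let `n ≥ 6`, and let `P` be the comparison isomorphism of the spin representation
`S` of the group `GSpin(T)`, `T` of rank `n`, such that all linear relations with algebraic
coefficients between the entries of `P` hold for the even Clifford algebra. Let `Q` be the
comparison isomorphism of any variety with polarized pieces of rank `< n` (symmetric) and `< n - 1`
(alternating). Then all algebraic subgroups `H` of `GL(S ⊕ H(Z))`, defined over the algebraic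
numbers, with a torsor over the algebraic numbers which contains the comparison isomorphism of
`S ⊕ H(Z)`, contain `Spin(T)`, acting on `S` and trivially on `H(Z)`. -/
theorem result {N B D : Type} [Fintype N] [DecidableEq N] [Fintype B] [DecidableEq B] {n : ℕ}
    (hn : 6 ≤ n) (Γ : Fin n → Matrix N N ℂ) (hΓ : IsSpinSystem Γ) (P : GL N ℂ)
    (hDeligne : InGSpin Γ P) (hWustholz : OnlyCliffordRelations Γ P.val)
    (piece : B → D) (even : D → Prop) (Q Φ Ψ : Matrix B B ℂ) (lam : D → ℂ)
    (hZ : IsPolarized piece even Q Φ Ψ lam)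
    (heven : ∀ k, even k → rank piece k < n) (hodd : ∀ k, ¬ even k → rank piece k + 1 < n)
    (H : Subgroup (GL (N ⊕ B) ℂ)) (hH : IsAlgebraicSubgroup H)
    (hPQ : HasPoint (fromBlocks P.val 0 0 Q) H) :
    ∀ g ∈ spin Γ, ∃ h ∈ H, (h : Matrix (N ⊕ B) (N ⊕ B) ℂ) = fromBlocks g.val 0 0 1 := by
  classical
  rcases isEmpty_or_nonempty N with hN | hN
  · intro g _
    refine ⟨1, one_mem H, ?_⟩
    have h1 : g.val = 1 := Matrix.ext fun i => isEmptyElim i
    rw [h1, Units.val_one, fromBlocks_one]
  have hcl := cl_of hΓ
  obtain ⟨A, hA, g₁, hg₁, hPA⟩ := hPQ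
  have hA0 : A.det ≠ 0 := by
    have h4 := (Matrix.isUnit_iff_isUnit_det _).1 g₁.isUnit
    rw [hPA, det_mul, isUnit_iff_ne_zero] at h4
    exact right_ne_zero_of_mul h4
  have hA1 : A * A⁻¹ = 1 := Matrix.mul_nonsing_inv _ (isUnit_iff_ne_zero.2 hA0)
  have hHal : Pool.Agent.TH119.MX.AlgGrp Pool.Agent.TH164.A1.QA (Pool.Agent.TH164.A1.carr H) := by
    refine Pool.Agent.TH164.A1.algGrp_carr ?_
    obtain ⟨I, h4, h6⟩ := hH
    exact ⟨I, fun p hp m => Pool.Agent.TH164.A1.mem_QA.2 (h4 p hp m), h6⟩
  have hW : ∀ C : Matrix N N ℂ, (∀ i j, IsAlgebraic ℚ (C i j)) → ∑ p : N × N,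
      C p.1 p.2 * P.val p.1 p.2 = 0 → ∀ x ∈ Pool.Agent.TH164.Spin.Ev Γ,
        ∑ p : N × N, C p.1 p.2 * x p.1 p.2 = 0 := by
    intro C hC h4 x hx
    rw [Fintype.sum_prod_type] at h4 ⊢
    exact hWustholz C hC h4 x hx
  have hst := fun d => Pool.Agent.TH128.KS.stab_main (piece := piece)
    (ε := fun k => if even k then 1 else -1) hcl hn hHal hΓ.algebraic (val_inv P) (inv_val P)
    (inG_of hDeligne) hDeligne.1 hW (Matrix.mul_nonsing_inv _ (isUnit_iff_ne_zero.2 hZ.det_Q))
    (Matrix.nonsing_inv_mul _ (isUnit_iff_ne_zero.2 hZ.det_Q)) hZ.piece_Q hZ.piece_Φ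
    (Matrix.mul_nonsing_inv _ (isUnit_iff_ne_zero.2 hZ.det_Φ))
    (Matrix.nonsing_inv_mul _ (isUnit_iff_ne_zero.2 hZ.det_Φ)) hZ.algebraic_Φ hZ.algebraic_Ψ
    (by
      intro a b
      by_cases h1 : even (piece a)
      · simp only [if_pos h1, one_mul]
        exact hZ.symmetric a b h1
      · simp only [if_neg h1, neg_one_mul]
        exact hZ.alternating a b h1) hZ.lam_ne hZ.period (by
      intro k
      by_cases h1 : even k
      · exact Or.inl ⟨if_pos h1, heven k h1⟩
      · exact Or.inr (hodd k h1)) hA1
    (Pool.Agent.TH164.A1.inv_mem_entries fun i j => Pool.Agent.TH164.A1.mem_QA.2 (hA i j))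
    (show fromBlocks P.val 0 0 Q * A ∈ Pool.Agent.TH164.A1.carr H from ⟨g₁, hg₁, hPA⟩) d
  intro g hg
  refine spin_of (fun u hu v hv huu hvv => ?_) hg
  have hb : ∀ t ∈ vectors Γ, t * t = 1 → Pool.Agent.TH164.Spin.bq t t = 1 := by
    intro t ht htt
    have h1 := hcl.sq_vec ht
    rw [htt] at h1
    have h2 : (Pool.Agent.TH164.Spin.bq t t - 1) • (1 : Matrix N N ℂ) = 0 := by
      rw [sub_smul, one_smul, ← h1, sub_self]
    rw [smul_eq_zero, or_iff_left one_ne_zero, sub_eq_zero] at h2
    exact h2
  have h5 := Pool.Agent.TH128.KS.pres_unit hcl (by omega) hst hu hv (hb u hu huu) (hb v hv hvv)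
  have e1 : u * v * (v * u) = 1 := by
    calc u * v * (v * u) = u * (v * v) * u := by simp only [Matrix.mul_assoc]
      _ = 1 := by rw [hvv, Matrix.mul_one, huu]
  have e2 : v * u * (u * v) = 1 := by
    calc v * u * (u * v) = v * (u * u) * v := by simp only [Matrix.mul_assoc]
      _ = 1 := by rw [huu, Matrix.mul_one, hvv]
  obtain ⟨y, hy1, hy2⟩ := hHal.mem_of_pres h5
    (g' := fromBlocks (v * u) 0 0 (1 : Matrix B B ℂ))
    (by rw [first_mul, e1, fromBlocks_one]) (by rw [first_mul, e2, fromBlocks_one])
  exact ⟨y, hy1, hy2⟩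

end Pool.Agent.Results.MP_470b79_ag.AnyVarietyTimesK3
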