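import Pool.Agent.TH164.Spin.AlgG
import Pool.Agent.H297R2.InBakerThm

/-!
# The de Rham-Betti conjecture for Kuga-Satake motives of even rank

Let `X` be a hyperkähler variety (for instance a K3 surface) over a subfield of the field of algebraic
numbers, and let `T` be the transcendental part of `H²(X)(1)`, of even rank `n ≥ 4`. Suppose that the
Hodge structure `T` has no other endomorphisms than `ℚ`. By Zarhin the Mumford-Tate group of the
Kuga-Satake abelian variety `A` of `X` is `GSpin(T)`, and with algebraic coefficients `h¹(A)` is a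
sum of copies of `S⁺` and `S⁻`, the two half-spin representations, which are simple and not
isomorphic. The motive `T` (and `h²(X)`, and the motive of `X` if `X` is a K3 surface or of a known
deformation type) belongs to the tensor category generated by `h¹(A)` and Artin motives.

Let `S = S⁺ ⊕ S⁻`. In an algebraic basis of the Betti realization of `S`, the space `T` is spanned by
matrices `Γ₁, …, Γₙ` with algebraic entries that satisfy the Clifford relations and generate the
algebra of all matrices; they exchange `S⁺` and `S⁻`. The even Clifford algebra consists of the block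
diagonal matrices, and `GSpin(T)` is the group of all its elements `g` with `g T g⁻¹ = T`. Choose an
algebraic basis of the de Rham realization of `S` which corresponds to the Betti basis under an
algebraic point of the motivic torsor, and let `P` be the period matrix of `S`.

* `hDeligne`: the matrix `P` belongs to `GSpin(T)` (Deligne: Hodge classes on abelian varieties are
  absolute Hodge classes; André: they are motivated), and the relation of Legendre gives the
  determinant.
* `hWustholz`: all linear relations with algebraic coefficients between the entries of `P` hold for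
  all block diagonal matrices (Wüstholz: the linear relations between the periods of an abelian variety
  are given by its endomorphisms).

The theorem: the group `GSpin(T)`, and hence the torsor `Ω^And` of `h¹(A)`, is the smallest one over
the algebraic numbers whose torsor contains the comparison isomorphism. As `Ω^dRB` is a torsor over
the algebraic numbers which contains the comparison isomorphism and is contained in `Ω^And`, one has
`Ω^dRB = Ω^And` for all motives in the tensor category generated by `h¹(A)`, in particular for `T`.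

The reason is algebraic: a Lie subalgebra of `so(n)`, `n ≥ 4` even, such that `S⁺`, `S⁻` are
irreducible and not isomorphic for it, is `so(n)`.
-/

set_option autoImplicit false
set_option linter.unusedSectionVars false

namespace Pool.Agent.Results.MP_470b79_ag.EvenRankKugaSatake

open Matrix

section defs

variable {N : Type} [Fintype N] [DecidableEq N] {n : ℕ}

/-- Matrices with algebraic entries which satisfy the relations of Clifford,
`Γᵢ² = 1` and `Γᵢ Γⱼ = - Γⱼ Γᵢ`, and generate the algebra of all matrices. -/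
structure IsSpinSystem (Γ : Fin n → Matrix N N ℂ) : Prop where
  algebraic : ∀ i a b, IsAlgebraic ℚ (Γ i a b)
  sq : ∀ i, Γ i * Γ i = 1
  anti : ∀ i j, i ≠ j → Γ i * Γ j = -(Γ j * Γ i)
  generate : Algebra.adjoin ℂ (Set.range Γ) = ⊤

/-- The space of vectors. -/
def vectors (Γ : Fin n → Matrix N N ℂ) : Submodule ℂ (Matrix N N ℂ) :=
  Submodule.span ℂ (Set.range Γ)

/-- The even Clifford algebra. -/
def evenClifford (Γ : Fin n → Matrix N N ℂ) : Subalgebra ℂ (Matrix N N ℂ) :=
  Algebra.adjoin ℂ {x | ∃ i j, x = Γ i * Γ j}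

/-- The conditions `g ∈ C⁺` and `g T g⁻¹ = T` for the space `T` of vectors. -/
def InGSpin (Γ : Fin n → Matrix N N ℂ) (g : GL N ℂ) : Prop :=
  g.val ∈ evenClifford Γ ∧ (g⁻¹).val ∈ evenClifford Γ ∧
    ∀ t : Matrix N N ℂ, g.val * t * (g⁻¹).val ∈ vectors Γ ↔ t ∈ vectors Γ

theorem val_inv (x : GL N ℂ) : x.val * (x⁻¹).val = 1 := by
  rw [← Units.val_mul, mul_inv_cancel, Units.val_one]

theorem inv_val (x : GL N ℂ) : (x⁻¹).val * x.val = 1 := by
  rw [← Units.val_mul, inv_mul_cancel, Units.val_one]

theorem inGSpin_mul {Γ : Fin n → Matrix N N ℂ} {x y : GL N ℂ} (hx : InGSpin Γ x)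
    (hy : InGSpin Γ y) : InGSpin Γ (x * y) := by
  refine ⟨?_, ?_, fun t => ?_⟩
  · rw [Units.val_mul]
    exact Subalgebra.mul_mem _ hx.1 hy.1
  · rw [_root_.mul_inv_rev, Units.val_mul]
    exact Subalgebra.mul_mem _ hy.2.1 hx.2.1
  · have h1 := hx.2.2 (y.val * t * (y⁻¹).val)
    rw [hy.2.2 t] at h1
    have h2 : x.val * (y.val * t * (y⁻¹).val) * (x⁻¹).val =
        (x * y).val * t * ((x * y)⁻¹).val := by
      rw [_root_.mul_inv_rev, Units.val_mul, Units.val_mul]
      simp only [Matrix.mul_assoc]
    rwa [h2] at h1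

theorem inGSpin_one (Γ : Fin n → Matrix N N ℂ) : InGSpin Γ 1 := by
  refine ⟨?_, ?_, fun t => ?_⟩
  · rw [Units.val_one]
    exact Subalgebra.one_mem _
  · rw [inv_one, Units.val_one]
    exact Subalgebra.one_mem _
  · rw [inv_one, Units.val_one, Matrix.one_mul, Matrix.mul_one]

theorem inGSpin_inv {Γ : Fin n → Matrix N N ℂ} {x : GL N ℂ} (hx : InGSpin Γ x) :
    InGSpin Γ x⁻¹ := by
  refine ⟨hx.2.1, ?_, fun t => ?_⟩
  · rw [inv_inv]
    exact hx.1
  · rw [← hx.2.2 ((x⁻¹).val * t * (x⁻¹⁻¹).val), inv_inv]
    have h1 : x.val * ((x⁻¹).val * t * x.val) * (x⁻¹).val = t := by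
      calc x.val * ((x⁻¹).val * t * x.val) * (x⁻¹).val =
          (x.val * (x⁻¹).val) * t * (x.val * (x⁻¹).val) := by simp only [Matrix.mul_assoc]
        _ = t := by rw [val_inv, Matrix.one_mul, Matrix.mul_one]
    rw [h1]

/-- The group `GSpin(T)` in the spin representation. -/
def gSpin (Γ : Fin n → Matrix N N ℂ) : Subgroup (GL N ℂ) where
  carrier := {g | InGSpin Γ g}
  mul_mem' := inGSpin_mul
  one_mem' := inGSpin_one Γ
  inv_mem' := inGSpin_inv

/-- All linear relations with algebraic coefficients between the entries of `P` hold for the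
even Clifford algebra. -/
def OnlyCliffordRelations (Γ : Fin n → Matrix N N ℂ) (P : Matrix N N ℂ) : Prop :=
  ∀ B : Matrix N N ℂ, (∀ i j, IsAlgebraic ℚ (B i j)) → ∑ i, ∑ j, B i j * P i j = 0 →
    ∀ x ∈ evenClifford Γ, ∑ i, ∑ j, B i j * x i j = 0

/-- A subgroup of `GL_N(ℂ)` defined by polynomials with algebraic coefficients. -/
def IsAlgebraicSubgroup (H : Subgroup (GL N ℂ)) : Prop :=
  ∃ I : Set (MvPolynomial (N × N) ℂ), (∀ p ∈ I, ∀ m, IsAlgebraic ℚ (p.coeff m)) ∧
    ∀ g : GL N ℂ, g ∈ H ↔ ∀ p ∈ I, MvPolynomial.eval (fun b => (g : Matrix N N ℂ) b.1 b.2) p = 0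

/-- The matrix `P` belongs to a torsor `H · A⁻¹` of `H` defined over the algebraic numbers. -/
def HasPoint (P : Matrix N N ℂ) (H : Subgroup (GL N ℂ)) : Prop :=
  ∃ A : Matrix N N ℂ, (∀ i j, IsAlgebraic ℚ (A i j)) ∧ ∃ g ∈ H, (g : Matrix N N ℂ) = P * A

end defs

section proof

open Pool.Agent.TH164.Spin Pool.Agent.TH119.MX

variable {N : Type} [Fintype N] [DecidableEq N] {n : ℕ}

theorem two_pi_I_transcendental : ¬ IsAlgebraic ℚ (2 * Real.pi * Complex.I : ℂ) := by
  intro h
  have h1 := Pool.Agent.H297R2.baker_inhom (ι := Unit) (fun _ => 2 * Real.pi * Complex.I)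
    (fun _ => by
      rw [Complex.exp_two_pi_mul_I]
      exact isAlgebraic_one)
    (LinearIndependent.of_subsingleton (R := ℚ) () Complex.two_pi_I_ne_zero)
    (-(2 * Real.pi * Complex.I)) h.neg (fun _ => 1) (fun _ => isAlgebraic_one) (by simp)
  exact one_ne_zero (h1.2 ())

theorem cl_of {Γ : Fin n → Matrix N N ℂ} [Nonempty N] (h : IsSpinSystem Γ) : Cl Γ where
  rel i j := by
    by_cases hij : i = j
    · rw [if_pos hij, hij, h.sq, two_smul]
    · rw [if_neg hij, zero_smul, h.anti i j hij, neg_add_cancel]
  gen := h.generate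

theorem inG_of {Γ : Fin n → Matrix N N ℂ} {g : GL N ℂ} (hg : g ∈ gSpin Γ) :
    InG Γ g.val (g⁻¹).val where
  r := val_inv g
  l := inv_val g
  c t ht := (hg.2.2 t).2 ht
  c' t ht := by
    have h1 := ((inGSpin_inv hg).2.2 t).2 ht
    rwa [inv_inv] at h1

end proof

/-- **Theorem.** Let `n ≥ 4` be even. Let `Γ₁, …, Γₙ` be matrices with algebraic entries
which satisfy the Clifford relations and generate the algebra of all matrices of their size (the
sum of the two half-spin representations). Let `P` be a point of `GSpin`, with the determinant of the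
relation of Legendre, such that all linear relations with algebraic coefficients between the entries
of `P` hold for the even Clifford algebra. Then `GSpin` is an algebraic group over the algebraic
numbers, and it is contained in every algebraic subgroup `H` of `GL_N`, defined over the algebraic
numbers, which has a torsor over the algebraic numbers which contains `P`. -/
theorem result {N : Type} [Fintype N] [DecidableEq N] {n : ℕ} (hn : Even n) (h4 : 4 ≤ n)
    (Γ : Fin n → Matrix N N ℂ) (hΓ : IsSpinSystem Γ) (P : GL N ℂ)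
    (hDeligne : P ∈ gSpin Γ) (hLegendre : P.val.det ^ 2 = (2 * Real.pi * Complex.I) ^ Fintype.card N)
    (hWustholz : OnlyCliffordRelations Γ P.val) :
    IsAlgebraicSubgroup (gSpin Γ) ∧
      ∀ H : Subgroup (GL N ℂ), IsAlgebraicSubgroup H → HasPoint P.val H → gSpin Γ ≤ H := by
  rcases isEmpty_or_nonempty N with hN | hN
  · have h1 : ∀ g : GL N ℂ, g = 1 := fun g => Units.ext (Matrix.ext fun i => isEmptyElim i)
    refine ⟨⟨∅, fun p hp => absurd hp (Set.notMem_empty p), fun g => ?_⟩, fun H _ _ g _ => ?_⟩
    · rw [h1 g]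
      exact ⟨fun _ p hp => absurd hp (Set.notMem_empty p), fun _ => one_mem _⟩
    · rw [h1 g]
      exact one_mem H
  have hcl := cl_of hΓ
  refine ⟨?_, ?_⟩
  · obtain ⟨I, hI1, hI2⟩ := Pool.Agent.TH164.Spin.gspin_alg hΓ.algebraic
    exact ⟨I, hI1, fun g => hI2 g⟩
  rintro H hH ⟨B, hB, g₁, hg₁, hPB⟩
  have hB0 : B.det ≠ 0 := by
    have h4 := (Matrix.isUnit_iff_isUnit_det _).1 g₁.isUnit
    rw [hPB, det_mul, isUnit_iff_ne_zero] at h4
    exact right_ne_zero_of_mul h4
  have hB1 : B * B⁻¹ = 1 := Matrix.mul_nonsing_inv _ (isUnit_iff_ne_zero.2 hB0)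
  have hHal : Pool.Agent.TH119.MX.AlgGrp Pool.Agent.TH164.A1.QA (Pool.Agent.TH164.A1.carr H) := by
    refine Pool.Agent.TH164.A1.algGrp_carr ?_
    obtain ⟨I, h4, h6⟩ := hH
    exact ⟨I, fun p hp m => Pool.Agent.TH164.A1.mem_QA.2 (h4 p hp m), h6⟩
  have hW : ∀ C : Matrix N N ℂ, (∀ i j, IsAlgebraic ℚ (C i j)) → ∑ p : N × N,
      C p.1 p.2 * P.val p.1 p.2 = 0 → ∀ x ∈ Pool.Agent.TH164.Spin.Ev Γ,
        ∑ p : N × N, C p.1 p.2 * x p.1 p.2 = 0 := by
    intro C hC h4 x hx
    rw [Fintype.sum_prod_type] at h4 ⊢
    exact hWustholz C hC h4 x hx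
  have hdetP : ¬ IsAlgebraic ℚ P.val.det := by
    intro h4
    have h6 : IsAlgebraic ℚ ((2 * Real.pi * Complex.I : ℂ) ^ Fintype.card N) := by
      rw [← hLegendre]
      exact h4.pow 2
    exact two_pi_I_transcendental (h6.of_pow Fintype.card_pos)
  have hst := fun d => hcl.stab_all' (by omega) (by
      rintro rfl
      exact absurd hn (by decide)) hHal hΓ.algebraic (val_inv P) (inv_val P) (inG_of hDeligne)
    hDeligne.1 hB1
    (Pool.Agent.TH164.A1.inv_mem_entries fun i j => Pool.Agent.TH164.A1.mem_QA.2 (hB i j))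
    (show P.val * B ∈ Pool.Agent.TH164.A1.carr H from ⟨g₁, hg₁, hPB⟩) hW hdetP d
  intro g hg
  have h5 := hcl.pres_all' (fun d => (hst d).1) (fun d => (hst d).2) n le_rfl _ _ (inG_of hg)
    hg.1 (fun i hi => absurd hi (by omega))
  obtain ⟨y, hy1, hy2⟩ := hHal.mem_of_pres h5 (val_inv g) (inv_val g)
  rw [← Units.ext hy2]
  exact hy1

end Pool.Agent.Results.MP_470b79_ag.EvenRankKugaSatake
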