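import Pool.Agent.TH164.Un.Un8

/-!
# The de Rham-Betti conjecture for motives with unitary groups of even rank

Let `E` be an imaginary quadratic field and let `m` be even.

(A) Let `A` be an abelian variety of dimension `m ≥ 4` over the field of algebraic numbers with
`End(A) ⊗ ℚ = E` and signature `(m - 1, 1)` (the abelian varieties of the ball quotients; for instance
the Jacobians of general curves `y³ = f₆(x)`, with `m = 4`). With algebraic coefficients,
`H¹(A) = W ⊕ W*(-1)`, and the Mumford-Tate group is `GL(W) × 𝔾ₘ` (Ribet).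

(B) Let `X` be a K3 surface or a hyperkähler variety over the field of algebraic numbers such that the
transcendental part `T` of `H²(X)(1)` has complex multiplication by `E` (`End(T) = E`), of rank `m`
over `E` (for instance the very general isotrivial elliptic K3 surface `y² = x³ + f₁₂(t)`,
with `m = 10`). With algebraic coefficients, `T = W ⊕ W*`, and the Mumford-Tate group of
`T ⊕ ℚ(1)` is `GL(W) × 𝔾ₘ` (Zarhin).

Let `X` be the period matrix of `W` in algebraic bases.

* `hWustholz`: let `ψ` be the part of type `(1, 0)` of `H¹` of an elliptic curve with complex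
  multiplication by `E`, and let `ω` be its period. For `1 ≤ p < m` a twist of `Λᵖ W` by a power of
  `ψ` is a direct factor of `H¹` of an abelian variety over the algebraic numbers (in (B) a factor of
  the Kuga-Satake variety), and `Λᵖ W` is an irreducible representation of the Mumford-Tate group. By
  the theorem of Wüstholz all linear relations with algebraic coefficients between the entries of the
  period matrix of this direct factor are trivial. This matrix is the matrix of the minors of size
  `p` of `X`, multiplied with a power of `ω`.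
* `hChudnovsky`: up to algebraic factors, the determinant of `X` is `ω ^ (m - 2) · 2πi` in case
  (A) and `ω⁻² · 2πi` in case (B), and `ω` and `π` are algebraically independent (Chudnovsky).

The theorem: `GL_m × 𝔾ₘ` is contained in every algebraic subgroup of `GL_{m + 1}` over the algebraic
numbers which has a torsor that contains the comparison isomorphism. As `Ω^dRB` is a
torsor over the algebraic numbers which contains the comparison isomorphism and is contained in
`Ω^And`, one has `Ω^dRB = Ω^And` for `h¹(A)` in case (A), for `T` and `h²(X)` in case (B), and for all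
motives generated by these.

The reason is algebraic: if `m` is even, then a Lie algebra of matrices of size `m` with
trace zero which is irreducible on all exterior powers is `sl(m)` (for `m` odd there is also
`so(m)`).
-/

set_option autoImplicit false
set_option linter.unusedSectionVars false

namespace Pool.Agent.Results.MP_470b79_ag.UnitaryAbelianVarieties

open Matrix

section defs

/-- All linear relations with algebraic coefficients between the minors of size `p` of `X` hold for
all matrices. -/
def OnlyTrivialRelations {m : ℕ} (p : ℕ) (X : Matrix (Fin m) (Fin m) ℂ) : Prop :=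
  ∀ B : (Fin p → Fin m) → (Fin p → Fin m) → ℂ, (∀ s t, IsAlgebraic ℚ (B s t)) →
    ∑ s, ∑ t, B s t * (X.submatrix s t).det = 0 →
    ∀ Y : Matrix (Fin m) (Fin m) ℂ, ∑ s, ∑ t, B s t * (Y.submatrix s t).det = 0

/-- The block diagonal matrix with blocks `g` and `c`. -/
def block {m : ℕ} (g : Matrix (Fin m) (Fin m) ℂ) (c : ℂ) :
    Matrix (Fin m ⊕ Unit) (Fin m ⊕ Unit) ℂ :=
  Matrix.fromBlocks g 0 0 (c • (1 : Matrix Unit Unit ℂ))

variable {N : Type} [Fintype N] [DecidableEq N]

/-- A subgroup of `GL_N(ℂ)` defined by polynomials with algebraic coefficients. -/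
def IsAlgebraicSubgroup (H : Subgroup (GL N ℂ)) : Prop :=
  ∃ I : Set (MvPolynomial (N × N) ℂ), (∀ p ∈ I, ∀ m, IsAlgebraic ℚ (p.coeff m)) ∧
    ∀ g : GL N ℂ, g ∈ H ↔ ∀ p ∈ I, MvPolynomial.eval (fun b => (g : Matrix N N ℂ) b.1 b.2) p = 0

/-- The matrix `P` belongs to a torsor `H · A⁻¹` of `H` defined over the algebraic numbers. -/
def HasPoint (P : Matrix N N ℂ) (H : Subgroup (GL N ℂ)) : Prop :=
  ∃ A : Matrix N N ℂ, (∀ i j, IsAlgebraic ℚ (A i j)) ∧ ∃ g ∈ H, (g : Matrix N N ℂ) = P * A

end defs

/-- **Theorem.** Let `m` be even. Let `X` be an invertible complex matrix of size `m` such that for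
`1 ≤ p < m` all linear relations with algebraic coefficients between the minors of size `p` of `X`
hold for all matrices, and such that the determinant of `X` and `2πi` are algebraically
independent. Let `H` be an algebraic subgroup of `GL_{m + 1}`, defined over the algebraic
numbers, which has a torsor over the algebraic numbers which contains the block diagonal matrix
with blocks `X` and `2πi`. Then `H` contains all invertible block diagonal matrices with blocks of
size `m` and `1`. -/
theorem result {m : ℕ} (hm : Even m) (X : GL (Fin m) ℂ)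
    (hWustholz : ∀ p, 1 ≤ p → p < m → OnlyTrivialRelations p X.val)
    (hChudnovsky : AlgebraicIndependent ℚ ![X.val.det, 2 * Real.pi * Complex.I])
    (H : Subgroup (GL (Fin m ⊕ Unit) ℂ)) (hH : IsAlgebraicSubgroup H)
    (hP : HasPoint (block X.val (2 * Real.pi * Complex.I)) H) (g : GL (Fin m) ℂ) (c : ℂ)
    (hc : c ≠ 0) : ∃ y ∈ H, y.val = block g.val c := by
  obtain ⟨B, hB, g₁, hg₁, hPB⟩ := hP
  have hB0 : B.det ≠ 0 := by
    have h4 := (Matrix.isUnit_iff_isUnit_det _).1 g₁.isUnit
    rw [hPB, det_mul, isUnit_iff_ne_zero] at h4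
    exact right_ne_zero_of_mul h4
  have hB1 : B * B⁻¹ = 1 := Matrix.mul_nonsing_inv _ (isUnit_iff_ne_zero.2 hB0)
  have hHal : Pool.Agent.TH119.MX.AlgGrp Pool.Agent.TH164.A1.QA (Pool.Agent.TH164.A1.carr H) := by
    refine Pool.Agent.TH164.A1.algGrp_carr ?_
    obtain ⟨I, h4, h6⟩ := hH
    exact ⟨I, fun p hp m => Pool.Agent.TH164.A1.mem_QA.2 (h4 p hp m), h6⟩
  have hX : X.val * (X⁻¹).val = 1 := by
    rw [← Units.val_mul, mul_inv_cancel, Units.val_one]
  have hg : g.val * (g⁻¹).val = 1 := by
    rw [← Units.val_mul, mul_inv_cancel, Units.val_one]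
  have hg' : (g⁻¹).val * g.val = 1 := by
    rw [← Units.val_mul, inv_mul_cancel, Units.val_one]
  have hst := Pool.Agent.TH164.Un.stab_top hm hHal hX Complex.two_pi_I_ne_zero hB1
    (Pool.Agent.TH164.A1.inv_mem_entries fun i j => Pool.Agent.TH164.A1.mem_QA.2 (hB i j))
    (show Pool.Agent.TH164.Un.blk X.val (2 * Real.pi * Complex.I) * B ∈
      Pool.Agent.TH164.A1.carr H from ⟨g₁, hg₁, hPB⟩) hWustholz hChudnovsky
  have h5 := Pool.Agent.TH164.Un.pres_top hst (g := g.val) (by
    have h4 := (Matrix.isUnit_iff_isUnit_det _).1 g.isUnit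
    exact h4.ne_zero) c
  obtain ⟨y, hy1, hy2⟩ := hHal.mem_of_pres h5 (g' := Pool.Agent.TH164.Un.blk (g⁻¹).val c⁻¹)
    (by rw [Pool.Agent.TH164.Un.blk_mul, hg, mul_inv_cancel₀ hc, Pool.Agent.TH164.Un.blk_one])
    (by rw [Pool.Agent.TH164.Un.blk_mul, hg', inv_mul_cancel₀ hc, Pool.Agent.TH164.Un.blk_one])
  exact ⟨y, hy1, hy2⟩

end Pool.Agent.Results.MP_470b79_ag.UnitaryAbelianVarieties
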